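import Pool.Agent.R227.Curve12

set_option autoImplicit false

open MeasureTheory Set Real

namespace Pool.Agent.Results.MP_e9ccd1_an.PlanarCurves

/-- A closed curve `γ : [0, L] → ℝᵈ` parametrised by arc length: continuous on `[0, L]`, with
`γ 0 = γ L`, differentiable with unit speed at every point of `(0, L)` outside a countable set, and
with at most countably many self-intersection parameters. -/
structure IsClosedCurve {d : ℕ} (γ : ℝ → EuclideanSpace ℝ (Fin d)) (L : ℝ) : Prop where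
  pos : 0 < L
  cont : ContinuousOn γ (Icc 0 L)
  closed : γ 0 = γ L
  speed : ∃ F : Set ℝ, F.Countable ∧ ∀ t ∈ Ioo 0 L \ F, DifferentiableAt ℝ γ t ∧ ‖deriv γ t‖ = 1
  simple : {t ∈ Ico 0 L | ∃ s ∈ Ico 0 L, s ≠ t ∧ γ s = γ t}.Countable

/-- The normalised arc-length measure of the curve. -/
noncomputable def arcMeasure {d : ℕ} (γ : ℝ → EuclideanSpace ℝ (Fin d)) (L : ℝ) :
    Measure (EuclideanSpace ℝ (Fin d)) :=
  (ENNReal.ofReal L)⁻¹ • Measure.map γ (volume.restrict (Icc 0 L))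

/-- Tight-frame spectrality of a measure. -/
def TightFrameSpectral {d : ℕ} (μ : Measure (EuclideanSpace ℝ (Fin d))) : Prop :=
  ∃ Λ : Set (EuclideanSpace ℝ (Fin d)), Λ.Countable ∧ ∃ A : ℝ, 0 < A ∧
    ∀ f : EuclideanSpace ℝ (Fin d) → ℂ, MemLp f 2 μ →
      HasSum (fun l : Λ => ‖∫ x, f x *
        Complex.exp (-(2 * π * (inner ℝ (l : EuclideanSpace ℝ (Fin d)) x : ℝ) * Complex.I)) ∂μ‖ ^ 2)
        (A * ∫ x, ‖f x‖ ^ 2 ∂μ)

open Pool.Agent.R227.Curve in
theorem result (d : ℕ) (γ : ℝ → EuclideanSpace ℝ (Fin d)) (L : ℝ) (hγ : IsClosedCurve γ L)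
    (hplane : ∃ W : Submodule ℝ (EuclideanSpace ℝ (Fin d)), Module.finrank ℝ W = 2 ∧
      ∀ s ∈ Icc 0 L, ∀ t ∈ Icc 0 L, γ s - γ t ∈ W) :
    ¬ TightFrameSpectral (arcMeasure γ L) := by
  rintro ⟨Λ, hΛ, A, hA, hfr⟩
  obtain ⟨W, hW2, hW⟩ := hplane
  obtain ⟨F, hF, hsp⟩ := hγ.speed
  have hL := hγ.pos
  have hcount : Countable Λ := hΛ.to_subtype
  -- projection to the plane
  let Φ : W ≃ₗᵢ[ℝ] ℂ := (stdOrthonormalBasis ℝ W).equiv (stdOrthonormalBasis ℝ ℂ)
    (finCongr (by rw [hW2, Complex.finrank_real_complex]))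
  let P : EuclideanSpace ℝ (Fin d) →L[ℝ] ℂ :=
    (Φ.toContinuousLinearEquiv : W →L[ℝ] ℂ).comp W.orthogonalProjectionOnto
  have hPn : ∀ x ∈ W, ‖P x‖ = ‖x‖ := by
    intro x hx
    change ‖Φ (W.orthogonalProjectionOnto x)‖ = ‖x‖
    rw [Φ.norm_map]
    have : W.orthogonalProjectionOnto x = ⟨x, hx⟩ := Submodule.orthogonalProjectionOnto_mem_subspace_eq_self ⟨x, hx⟩
    rw [this]
    rfl
  have hPle : ∀ x, ‖P x‖ ≤ ‖x‖ := by
    intro x
    change ‖Φ (W.orthogonalProjectionOnto x)‖ ≤ ‖x‖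
    rw [Φ.norm_map]
    exact W.norm_orthogonalProjectionOnto_apply_le x
  have hPi : ∀ l, ∀ x ∈ W, ip (P l) (P x) = inner ℝ l x := by
    intro l x hx
    change inner ℝ (Φ (W.orthogonalProjectionOnto l)) (Φ (W.orthogonalProjectionOnto x)) = _
    rw [Φ.inner_map_map]
    have : W.orthogonalProjectionOnto x = ⟨x, hx⟩ := Submodule.orthogonalProjectionOnto_mem_subspace_eq_self ⟨x, hx⟩
    rw [this]
    exact Submodule.inner_orthogonalProjectionOnto_eq_of_mem_right ⟨x, hx⟩ l
  -- extended curve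
  let γe : ℝ → EuclideanSpace ℝ (Fin d) := fun t => γ (projIcc 0 L hL.le t)
  have hγe : ∀ t ∈ Icc 0 L, γe t = γ t := by
    intro t ht
    simp only [γe]
    rw [projIcc_of_mem hL.le ht]
  have hγec : Continuous γe := by
    have h1 : Continuous (fun x : Icc (0:ℝ) L => γ x) := hγ.cont.domRestrict
    exact h1.comp continuous_projIcc
  let γc : ℝ → ℂ := fun t => P (γe t - γ 0)
  classical
  let γ' : ℝ → EuclideanSpace ℝ (Fin d) := fun t => if t ∈ Ioo 0 L \ F then deriv γe t else 0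
  have hγ'm : Measurable γ' := by
    apply Measurable.ite (measurableSet_Ioo.diff hF.measurableSet) (measurable_deriv γe) measurable_const
  have hnear : ∀ t ∈ Ioo 0 L, γe =ᶠ[nhds t] γ := by
    intro t ht
    filter_upwards [isOpen_Ioo.mem_nhds ht] with s hs
    exact hγe s (Ioo_subset_Icc_self hs)
  have hder : ∀ t ∈ Ioo 0 L \ F, HasDerivAt γe (γ' t) t ∧ ‖γ' t‖ = 1 := by
    intro t ht
    obtain ⟨h1, h2⟩ := hsp t ht
    have h3 : HasDerivAt γe (deriv γ t) t := h1.hasDerivAt.congr_of_eventuallyEq (hnear t ht.1)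
    have h4 : γ' t = deriv γ t := by
      simp only [γ', if_pos ht]
      exact h3.deriv
    rw [h4]
    exact ⟨h3, h2⟩
  have hγ'b : ∀ t, ‖γ' t‖ ≤ 1 := by
    intro t
    by_cases ht : t ∈ Ioo 0 L \ F
    · exact (hder t ht).2.le
    · simp only [γ', if_neg ht, norm_zero]
      exact zero_le_one
  -- Lipschitz
  have hlip0 : ∀ s ∈ Icc 0 L, ∀ t ∈ Icc 0 L, s ≤ t → ‖γe s - γe t‖ ≤ |s - t| := by
    intro s hs t ht hst
    have hint := integral_eq_of_hasDerivAt_off_countable_of_le γe γ' hst hF hγec.continuousOn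
      (fun x hx => (hder x ⟨⟨lt_of_le_of_lt hs.1 hx.1.1, lt_of_lt_of_le hx.1.2 ht.2⟩, hx.2⟩).1)
      (by
        rw [intervalIntegrable_iff, uIoc_of_le hst]
        exact Integrable.of_bound (C := 1) hγ'm.aestronglyMeasurable
          (Filter.Eventually.of_forall hγ'b))
    rw [norm_sub_rev, ← hint]
    have := intervalIntegral.norm_integral_le_of_norm_le_const (f := γ') (C := 1) (a := s) (b := t)
      (fun x _ => hγ'b x)
    rw [one_mul, abs_sub_comm] at this
    exact this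
  have hlip1 : ∀ s t, ‖γe s - γe t‖ ≤ |s - t| := by
    intro s t
    have e1 : ∀ s, γe s = γe (projIcc 0 L hL.le s) := by
      intro s
      simp only [γe]
      rw [projIcc_val]
    rw [e1 s, e1 t]
    have hb : |((projIcc 0 L hL.le s : ℝ)) - (projIcc 0 L hL.le t : ℝ)| ≤ |s - t| := by
      simp only [coe_projIcc]
      exact (abs_max_sub_max_le_max 0 _ 0 _).trans (by
        rw [sub_self, abs_zero, max_eq_right (abs_nonneg _)]
        refine (abs_min_sub_min_le_max L s L t).trans ?_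
        rw [sub_self, abs_zero, max_eq_right (abs_nonneg _)])
    refine le_trans ?_ hb
    rcases le_total (projIcc 0 L hL.le s : ℝ) (projIcc 0 L hL.le t : ℝ) with h1 | h1
    · exact hlip0 _ (projIcc 0 L hL.le s).2 _ (projIcc 0 L hL.le t).2 h1
    · rw [norm_sub_rev, abs_sub_comm]
      exact hlip0 _ (projIcc 0 L hL.le t).2 _ (projIcc 0 L hL.le s).2 h1
  have hC : CCurve γc (fun t => P (γ' t)) L F :=
    { hL := hL
      cont := P.continuous.comp (hγec.sub continuous_const)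
      meas := P.continuous.measurable.comp hγ'm
      bd := fun t => (hPle _).trans (hγ'b t)
      lip := by
        intro s t
        simp only [γc]
        rw [← map_sub, sub_sub_sub_cancel_right]
        exact (hPle _).trans (hlip1 s t)
      hS := hF
      der := by
        intro t ht
        have h1 : HasDerivAt (fun t => γe t - γ 0) (γ' t) t := (hder t ht).1.sub_const _
        exact P.hasFDerivAt.comp_hasDerivAt t h1
      per := by
        simp only [γc]
        rw [hγe 0 ⟨le_rfl, hL.le⟩, hγe L ⟨hL.le, le_rfl⟩, hγ.closed]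
      inj := by
        refine hγ.simple.mono ?_
        rintro t ⟨ht, s, hs, hst, h1⟩
        refine ⟨ht, s, hs, hst, ?_⟩
        have hs' := Ico_subset_Icc_self hs
        have ht' := Ico_subset_Icc_self ht
        have h2 : P (γ s - γ t) = 0 := by
          simp only [γc] at h1
          rw [hγe s hs', hγe t ht'] at h1
          have : P ((γ s - γ 0) - (γ t - γ 0)) = 0 := by rw [map_sub, h1, sub_self]
          rwa [sub_sub_sub_cancel_right] at this
        have h3 := hPn _ (hW s hs' t ht')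
        rw [h2, norm_zero] at h3
        exact sub_eq_zero.mp (norm_eq_zero.mp h3.symm) }
  refine no_tight (lam := fun l : Λ => P l) (A := A * L) hC (by positivity) ?_
  intro a ha hab
  obtain ⟨M, hM⟩ := hab
  obtain ⟨f, hfm, hfb, hfa⟩ := exists_pull hγ.cont hγ.simple a ha M hM
  have hγm : AEMeasurable γ (volume.restrict (Icc 0 L)) := hγ.cont.aemeasurable measurableSet_Icc
  have hfin : IsFiniteMeasure (arcMeasure γ L) := by
    unfold arcMeasure
    have : IsFiniteMeasure (Measure.map γ (volume.restrict (Icc 0 L))) := by infer_instance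
    exact Measure.smul_finite _ (by simp [hL])
  have hmem : MemLp f 2 (arcMeasure γ L) :=
    MemLp.of_bound hfm.aestronglyMeasurable M (Filter.Eventually.of_forall hfb)
  have hint : ∀ G : EuclideanSpace ℝ (Fin d) → ℂ, Measurable G →
      ∫ x, G x ∂(arcMeasure γ L) = (L⁻¹ : ℝ) • ∫ t in Ioc 0 L, G (γ t) := by
    intro G hG
    unfold arcMeasure
    rw [integral_smul_measure, integral_map hγm hG.aestronglyMeasurable, integral_Icc_eq_integral_Ioc]
    congr 1
    rw [ENNReal.toReal_inv, ENNReal.toReal_ofReal hL.le]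
  have hintR : ∀ G : EuclideanSpace ℝ (Fin d) → ℝ, Measurable G →
      ∫ x, G x ∂(arcMeasure γ L) = (L⁻¹ : ℝ) • ∫ t in Ioc 0 L, G (γ t) := by
    intro G hG
    unfold arcMeasure
    rw [integral_smul_measure, integral_map hγm hG.aestronglyMeasurable, integral_Icc_eq_integral_Ioc]
    congr 1
    rw [ENNReal.toReal_inv, ENNReal.toReal_ofReal hL.le]
  have hfa' : ∀ᵐ t ∂(volume.restrict (Ioc 0 L)), f (γ t) = a t := by
    rw [restrict_Ioc_eq_restrict_Icc]
    exact hfa
  have h := hfr f hmem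
  have e1 : ∀ l : Λ, ∫ x, f x *
        Complex.exp (-(2 * π * (inner ℝ (l : EuclideanSpace ℝ (Fin d)) x : ℝ) * Complex.I)) ∂(arcMeasure γ L)
      = (L⁻¹ : ℝ) • (ch (inner ℝ (l : EuclideanSpace ℝ (Fin d)) (γ 0)) *
        ∫ t in Ioc 0 L, ch (ip (P l) (γc t)) * a t) := by
    intro l
    rw [hint _ (by fun_prop)]
    congr 1
    rw [← integral_const_mul]
    apply integral_congr_ae
    filter_upwards [hfa', ae_restrict_mem measurableSet_Ioc] with t ht htI
    have htI' : t ∈ Icc 0 L := Ioc_subset_Icc_self htI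
    rw [ht]
    have e2 : ip (P l) (γc t) = inner ℝ (l : EuclideanSpace ℝ (Fin d)) (γ t)
        - inner ℝ (l : EuclideanSpace ℝ (Fin d)) (γ 0) := by
      simp only [γc]
      rw [hγe t htI', hPi _ _ (hW t htI' 0 ⟨le_rfl, hL.le⟩), inner_sub_right]
    rw [e2, ← mul_assoc, ← ch_add, add_sub_cancel, mul_comm]
    rfl
  have e3 : ∫ x, ‖f x‖ ^ 2 ∂(arcMeasure γ L) = L⁻¹ * ∫ t in Ioc 0 L, ‖a t‖ ^ 2 := by
    rw [hintR _ (by fun_prop), smul_eq_mul]
    congr 1
    apply integral_congr_ae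
    filter_upwards [hfa'] with t ht
    rw [ht]
  simp_rw [e1, e3] at h
  have h2 := h.mul_left (L ^ 2)
  have e4 : ∀ l : Λ, L ^ 2 * ‖(L⁻¹ : ℝ) • (ch (inner ℝ (l : EuclideanSpace ℝ (Fin d)) (γ 0)) *
        ∫ t in Ioc 0 L, ch (ip (P l) (γc t)) * a t)‖ ^ 2
      = ‖∫ t in Ioc 0 L, ch (ip (P l) (γc t)) * a t‖ ^ 2 := by
    intro l
    rw [norm_smul, norm_mul, norm_ch, one_mul, Real.norm_eq_abs, abs_of_pos (by positivity), mul_pow]
    field_simp
  have e5 : L ^ 2 * (A * (L⁻¹ * ∫ t in Ioc 0 L, ‖a t‖ ^ 2)) = A * L * ∫ t in Ioc 0 L, ‖a t‖ ^ 2 := by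
    field_simp
  simp_rw [e4, e5] at h2
  exact h2

end Pool.Agent.Results.MP_e9ccd1_an.PlanarCurves
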